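import Pool.Agent.W739.CY.Stm

/-!
Project CY (helper739): part VL, removal of the right wall.
-/

set_option autoImplicit false

namespace Pool.Agent.W99.CY

open Pool.Agent.W739.CY

section spl

variable {C : Type}

lemma spl_nil (f : List C → C → List C → ℝ) : spl f [] = 0 := rfl

lemma spl_cons (f : List C → C → List C → ℝ) (x : C) (w : List C) :
    spl f (x :: w) = f [] x w + spl (fun v c u => f (x :: v) c u) w := rfl

lemma spl_congr : ∀ (w : List C) (f g : List C → C → List C → ℝ),
    (∀ v c u, w = v ++ c :: u → f v c u = g v c u) → spl f w = spl g w
  | [], _, _, _ => rfl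
  | x :: w, f, g, h => by
    rw [spl_cons, spl_cons, h [] x w rfl, spl_congr w _ (fun v c u => g (x :: v) c u)]
    intro v c u hw
    apply h
    rw [hw]
    rfl

lemma spl_add : ∀ (w : List C) (f g : List C → C → List C → ℝ),
    spl (fun v c u => f v c u + g v c u) w = spl f w + spl g w
  | [], _, _ => by simp [spl_nil]
  | x :: w, f, g => by
    rw [spl_cons, spl_cons, spl_cons, spl_add w]
    ring

lemma spl_sub : ∀ (w : List C) (f g : List C → C → List C → ℝ),
    spl (fun v c u => f v c u - g v c u) w = spl f w - spl g w
  | [], _, _ => by simp [spl_nil]
  | x :: w, f, g => by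
    rw [spl_cons, spl_cons, spl_cons, spl_sub w]
    ring

lemma spl_mul : ∀ (w : List C) (k : ℝ) (f : List C → C → List C → ℝ),
    spl (fun v c u => k * f v c u) w = k * spl f w
  | [], _, _ => by simp [spl_nil]
  | x :: w, k, f => by
    rw [spl_cons, spl_cons, spl_mul w]
    ring

lemma spl_zero : ∀ (w : List C), spl (fun _ _ _ => (0 : ℝ)) w = 0
  | [] => rfl
  | x :: w => by rw [spl_cons, spl_zero w, add_zero]

/-- deletions and splittings -/
lemma spl_del (p : ℝ) : ∀ (w : List C) (g : List C → C → List C → ℝ),
    spl (fun v _ u => p ^ u.length * spl g (v ++ u)) w =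
    spl (fun v c u => spl (fun u1 _ u2 => p ^ u2.length * g v c (u1 ++ u2)) u +
      p ^ (u.length + 1) * spl (fun v1 _ v2 => p ^ v2.length * g (v1 ++ v2) c u) v) w
  | [], _ => rfl
  | x :: w, g => by
    rw [spl_cons, spl_cons]
    simp only [List.nil_append, List.cons_append, spl_cons, spl_nil, mul_zero, add_zero]
    have h1 := spl_del p w (fun v c u => g (x :: v) c u)
    have h2 : spl (fun v c u => p ^ u.length * (g [] x (v ++ u) +
        spl (fun v' c' u' => g (x :: v') c' u') (v ++ u))) w =
        spl (fun v _ u => p ^ u.length * g [] x (v ++ u)) w +
        spl (fun v _ u => p ^ u.length * spl (fun v' c' u' => g (x :: v') c' u') (v ++ u)) w := by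
      rw [← spl_add]
      exact spl_congr _ _ _ fun v c u _ => by ring
    have h3 : spl (fun v c u => spl (fun u1 _ u2 => p ^ u2.length * g (x :: v) c (u1 ++ u2)) u +
        p ^ (u.length + 1) * (p ^ v.length * g v c u +
          spl (fun v1 _ v2 => p ^ v2.length * g (x :: (v1 ++ v2)) c u) v)) w =
        spl (fun v c u => spl (fun u1 _ u2 => p ^ u2.length * g (x :: v) c (u1 ++ u2)) u +
        p ^ (u.length + 1) * spl (fun v1 _ v2 => p ^ v2.length * g (x :: (v1 ++ v2)) c u) v) w +
        p ^ w.length * spl g w := by
      rw [← spl_mul, ← spl_add]
      refine spl_congr _ _ _ fun v c u hw => ?_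
      have hl : w.length = u.length + 1 + v.length := by
        rw [hw, List.length_append, List.length_cons]
        omega
      rw [hl, pow_add p (u.length + 1) v.length]
      ring
    rw [h2, h3, h1]
    ring

end spl

section Pr

variable {C : Type}

lemma Pr_append : ∀ (v : List C) (a : Option C) (c : C) (u : List C) (b : Option C),
    Pr a (v ++ c :: u) b ↔ Pr a v (some c) ∧ Pr (some c) u b
  | [], a, c, u, b => Iff.rfl
  | x :: v, a, c, u, b => by
    show ok a (some x) ∧ Pr (some x) (v ++ c :: u) b ↔
      (ok a (some x) ∧ Pr (some x) v (some c)) ∧ Pr (some c) u b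
    rw [Pr_append v, and_assoc]

lemma ok_none (a : Option C) : ok a none := by
  unfold ok
  by_cases h : a = none
  · exact Or.inl h
  · exact Or.inr h

lemma Pr_last (u : List C) (a b : Option C) (l : C) :
    Pr a (u ++ [l]) b ↔ Pr a u (some l) ∧ ok (some l) b := Pr_append u a l [] b

lemma ok_some (c y : C) : ok (some c) (some y) ↔ c ≠ y := by
  unfold ok
  simp

lemma not_Pr_del (a : Option C) (v u : List C) (c y : C) (hu : u ≠ [])
    (h1 : Pr a (v ++ c :: u) none) (h2 : ¬ Pr a (v ++ c :: u) (some y)) :
    ¬ Pr a (v ++ u) (some y) := by
  rw [Pr_append] at h1 h2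
  obtain ⟨u', l, rfl⟩ : ∃ u' l, u = u' ++ [l] := by
    rcases List.eq_nil_or_concat' u with h | ⟨u', l, h⟩
    · exact absurd h hu
    · exact ⟨u', l, h⟩
  rw [Pr_last] at h1 h2
  rw [← List.append_assoc, Pr_last]
  intro h
  exact h2 ⟨h1.1, h1.2.1, h.2⟩

lemma Pr_none (a b : Option C) (w : List C) (h : Pr a w b) : Pr a w none := by
  rcases List.eq_nil_or_concat' w with rfl | ⟨u', l, rfl⟩
  · exact ok_none a
  · rw [Pr_last] at h ⊢
    exact ⟨h.1, ok_none _⟩

end Pr

theorem t_VL (hDEL : S_DEL) : S_VL := by
  intro C _ p hp a b w hab
  have hF0 : ∀ a b : Option C, F p a ([] : List C) b = if ok a b then 1 else 0 :=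
    fun a b => (hDEL C p hp a b).1
  have hF1 : ∀ (a b : Option C) (w : List C), ¬ Pr a w b → F p a w b = 0 :=
    fun a b => (hDEL C p hp a b).2.1
  have hF3 : ∀ (a b : Option C) (w : List C), w ≠ [] → Pr a w b →
      (1 - p ^ w.length) * F p a w b = spl (fun v _ u => p ^ u.length * F p a (v ++ u) b) w :=
    fun a b => (hDEL C p hp a b).2.2.2.1
  have hF3' : ∀ (a b : Option C) (w : List C), Pr a w b →
      (1 - p ^ w.length) * F p a w b = spl (fun v _ u => p ^ u.length * F p a (v ++ u) b) w := by
    intro a b w hw
    by_cases h : w = []
    · subst h
      simp [spl_nil]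
    · exact hF3 a b w h hw
  rcases b with _ | y
  · rw [spl_congr w _ (fun _ _ _ => 0) (fun v c u _ => by simp), spl_zero, sub_zero]
  have hne : ∀ n : ℕ, 1 - p ^ (n + 1) ≠ 0 := fun n => hp.sub n
  set g : List C → C → List C → ℝ := fun v c u => if some c = some y then
      F p a v (some y) * F p (some y) u none / (1 - p ^ (u.length + 1)) else 0 with hg
  suffices hmain : ∀ (m : ℕ) (w : List C), w.length = m →
      F p a w none = F p a w (some y) + spl g w by
    rw [hmain _ w rfl]
    ring
  intro m
  induction m with
  | zero =>
    intro w hw
    rw [List.length_eq_zero_iff] at hw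
    subst hw
    rw [hF0, hF0, spl_nil, if_pos (ok_none a), if_pos hab, add_zero]
  | succ m ih =>
    intro w hw
    have hwne : w ≠ [] := by
      rintro rfl
      simp at hw
    by_cases hP : Pr a w none
    · have h1 := hF3 a none w hwne hP
      -- the induction hypothesis
      have h2 : spl (fun v _ u => p ^ u.length * F p a (v ++ u) none) w =
          spl (fun v _ u => p ^ u.length * F p a (v ++ u) (some y)) w +
          spl (fun v _ u => p ^ u.length * spl g (v ++ u)) w := by
        rw [← spl_add]
        refine spl_congr _ _ _ fun v c u hvu => ?_
        rw [ih (v ++ u) (by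
          have := congrArg List.length hvu
          rw [List.length_append, List.length_cons, hw] at this
          rw [List.length_append]
          omega)]
        ring
      -- the splittings
      have h3 : spl (fun v c u => spl (fun u1 _ u2 => p ^ u2.length * g v c (u1 ++ u2)) u +
          p ^ (u.length + 1) * spl (fun v1 _ v2 => p ^ v2.length * g (v1 ++ v2) c u) v) w =
          (1 - p ^ w.length) * spl g w -
            spl (fun v c u => if u = [] ∧ c = y then F p a v (some y) else 0) w := by
        rw [← spl_mul, ← spl_sub]
        refine spl_congr _ _ _ fun v c u hvu => ?_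
        by_cases hc : c = y
        · subst hc
          rw [hvu, Pr_append] at hP
          obtain ⟨hP1, hP2⟩ := hP
          have hl : w.length = v.length + (u.length + 1) := by
            rw [hvu, List.length_append, List.length_cons]
          have hB : spl (fun v1 _ v2 => p ^ v2.length * g (v1 ++ v2) c u) v =
              F p (some c) u none / (1 - p ^ (u.length + 1)) *
                ((1 - p ^ v.length) * F p a v (some c)) := by
            rw [hF3' a (some c) v hP1, ← spl_mul]
            refine spl_congr _ _ _ fun v1 d v2 _ => ?_
            simp only [hg, if_true]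
            ring
          have hgv : g v c u =
              F p a v (some c) * F p (some c) u none / (1 - p ^ (u.length + 1)) := by
            simp only [hg, if_true]
          have hn := hne u.length
          by_cases hu : u = []
          · subst hu
            have h00 : F p (some c) ([] : List C) none = 1 := by
              rw [hF0, if_pos (ok_none _)]
            have hp1 : 1 - p ≠ 0 := by
              have := hne 0
              rwa [zero_add, pow_one] at this
            rw [hB, hgv, spl_nil, hl]
            simp only [List.length_nil, zero_add, pow_one, and_self, if_true, h00]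
            rw [pow_succ]
            field_simp
            ring
          · have hA : spl (fun u1 _ u2 => p ^ u2.length * g v c (u1 ++ u2)) u =
                F p a v (some c) * F p (some c) u none := by
              have hul : u.length ≠ 0 := by
                intro h
                exact hu (List.length_eq_zero_iff.1 h)
              obtain ⟨k, hk⟩ := Nat.exists_eq_succ_of_ne_zero hul
              have h5 : spl (fun u1 _ u2 => p ^ u2.length * g v c (u1 ++ u2)) u =
                  F p a v (some c) / (1 - p ^ u.length) *
                    ((1 - p ^ u.length) * F p (some c) u none) := by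
                rw [hF3 (some c) none u hu hP2, ← spl_mul]
                refine spl_congr _ _ _ fun u1 d u2 hu12 => ?_
                have hl2 : (u1 ++ u2).length + 1 = u.length := by
                  rw [hu12, List.length_append, List.length_append, List.length_cons]
                  omega
                simp only [hg, if_true, hl2]
                ring
              rw [h5]
              have := hne k
              rw [← Nat.succ_eq_add_one, ← hk] at this
              field_simp
            rw [hA, hB, hgv, if_neg (by rintro ⟨h, _⟩; exact hu h), sub_zero, hl,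
              pow_add p v.length (u.length + 1)]
            generalize p ^ (u.length + 1) = P at hn ⊢
            generalize p ^ v.length = Q
            field_simp
            ring
        · have hg0 : ∀ v u, g v c u = 0 := by
            intro v u
            simp only [hg]
            rw [if_neg]
            simpa using hc
          simp only [hg0, mul_zero, spl_zero]
          rw [if_neg (by rintro ⟨_, h⟩; exact hc h)]
          simp
      -- the last step
      have h4 : spl (fun v _ u => p ^ u.length * F p a (v ++ u) (some y)) w -
          spl (fun v c u => if u = [] ∧ c = y then F p a v (some y) else 0) w =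
          (1 - p ^ w.length) * F p a w (some y) := by
        by_cases hPb : Pr a w (some y)
        · rw [hF3 a (some y) w hwne hPb]
          have h0 : spl (fun v c u => if u = [] ∧ c = y then F p a v (some y) else 0) w =
              spl (fun _ _ _ => (0 : ℝ)) w := by
            refine spl_congr _ _ _ fun v c u hvu => ?_
            rw [if_neg]
            rintro ⟨rfl, rfl⟩
            rw [hvu, Pr_append] at hPb
            exact ((ok_some c c).1 hPb.2) rfl
          rw [h0, spl_zero, sub_zero]
        · rw [hF1 a (some y) w hPb, mul_zero, sub_eq_zero]
          refine spl_congr _ _ _ fun v c u hvu => ?_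
          rw [hvu] at hP hPb
          by_cases hu : u = []
          · subst hu
            have hc : c = y := by
              by_contra hc
              apply hPb
              rw [Pr_append] at hP ⊢
              exact ⟨hP.1, (ok_some c y).2 hc⟩
            simp [hc]
          · rw [hF1 _ _ _ (not_Pr_del a v u c y hu hP hPb), mul_zero,
              if_neg (by rintro ⟨h, _⟩; exact hu h)]
      have hmne : 1 - p ^ w.length ≠ 0 := by
        rw [hw]
        exact hne m
      apply mul_left_cancel₀ hmne
      rw [h1, h2, spl_del, h3, mul_add, ← h4]
      ring
    · -- improper words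
      have hPb : ¬ Pr a w (some y) := fun h => hP (Pr_none _ _ _ h)
      rw [hF1 _ _ _ hP, hF1 _ _ _ hPb, zero_add]
      rw [spl_congr w g (fun _ _ _ => 0), spl_zero]
      intro v c u hvu
      by_cases hc : c = y
      · subst hc
        rw [hvu, Pr_append] at hP
        simp only [hg, if_true]
        by_cases hv : Pr a v (some c)
        · rw [hF1 (some c) none u (fun h => hP ⟨hv, h⟩)]
          simp
        · rw [hF1 a (some c) v hv]
          simp
      · simp only [hg]
        rw [if_neg]
        simpa using hc

end Pool.Agent.W99.CY
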